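import Mathlib

/-!
Disproof of the common minimiser assertion for the zero branches of `G_{α,β}`: it fails for `α = 3`.
For `α = 3` the four branches are a negative real one, a positive real one and two complex conjugate
ones.  The modulus of the positive branch is not minimal at any `β ∈ (-1, -3/10]`, and the modulus of
the complex branch is not minimal at any `β ∈ [-3/10, 0)`.
-/

open Set Filter Topology
open scoped ContDiff

namespace Pool.Agent.Results.MP_9fecad_an.NoCommonMinimiser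

/-- The polynomial `G_{α,β}(ξ) = ∑_{n=0}^{α+1} binom(α+1,n) (-ξ)^n / (n+β)`. -/
noncomputable def G (α : ℕ) (β : ℝ) (ξ : ℂ) : ℂ :=
  ∑ n ∈ Finset.range (α + 2), ((α + 1).choose n : ℂ) * ((-ξ) ^ n / ((n : ℂ) + (β : ℂ)))

/-- The set `{(β, ξ) ∈ (-1,0) × ℂ : G_{α,β}(ξ) = 0}`. -/
def zeroSet (α : ℕ) : Set (ℝ × ℂ) :=
  {p | p.1 ∈ Ioo (-1 : ℝ) 0 ∧ G α p.1 p.2 = 0}

/-- `X` is (on `(-1,0)`) a branch of zeros: it is `C^∞` on `(-1,0)` and its graph over `(-1,0)` is a
connected component of `zeroSet α`. -/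
def IsBranch (α : ℕ) (X : ℝ → ℂ) : Prop :=
  ContDiffOn ℝ ∞ X (Ioo (-1) 0) ∧
    ∀ β ∈ Ioo (-1 : ℝ) 0,
      connectedComponentIn (zeroSet α) (β, X β) = (fun t : ℝ => (t, X t)) '' Ioo (-1) 0

/-- `X` is real valued and strictly decreasing on `(-1,0)`, mapping `(-1,0)` onto `(-∞,0)`
(this singles out the branch `𝒳_{α,0}`). -/
def IsRealDecreasing (X : ℝ → ℂ) : Prop :=
  (∀ β ∈ Ioo (-1 : ℝ) 0, (X β).im = 0) ∧
    StrictAntiOn (fun β => (X β).re) (Ioo (-1) 0) ∧
    (fun β => (X β).re) '' Ioo (-1) 0 = Iio 0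

/-- coefficients of the monic quartic `(4 + β) * G 3 β ξ` -/
noncomputable def e1 (β : ℝ) : ℝ := 4 * (4 + β) / (3 + β)
noncomputable def e2 (β : ℝ) : ℝ := 6 * (4 + β) / (2 + β)
noncomputable def e3 (β : ℝ) : ℝ := 4 * (4 + β) / (1 + β)
noncomputable def e4 (β : ℝ) : ℝ := (4 + β) / β

noncomputable def q (β : ℝ) (x : ℝ) : ℝ :=
  x ^ 4 - e1 β * x ^ 3 + e2 β * x ^ 2 - e3 β * x + e4 β

/-- derivative of `q β` -/
noncomputable def q' (β : ℝ) (x : ℝ) : ℝ :=
  4 * x ^ 3 - 3 * e1 β * x ^ 2 + 2 * e2 β * x - e3 β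

lemma hasDerivAt_q (β x : ℝ) : HasDerivAt (q β) (q' β x) x := by
  have h4 := (hasDerivAt_pow 4 x)
  have h3 := (hasDerivAt_pow 3 x).const_mul (e1 β)
  have h2 := (hasDerivAt_pow 2 x).const_mul (e2 β)
  have h1 := (hasDerivAt_id x).const_mul (e3 β)
  have := (((h4.fun_sub h3).fun_add h2).fun_sub h1).add_const (e4 β)
  refine this.congr_deriv ?_
  simp [q']
  ring

lemma e_facts {β : ℝ} (hβ : β ∈ Ioo (-1:ℝ) 0) :
    0 < e1 β ∧ 0 < e2 β ∧ 0 < e3 β ∧ e4 β < 0 := by
  obtain ⟨h1, h2⟩ := hβ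
  have b1 : 0 < 1 + β := by linarith
  have b2 : 0 < 2 + β := by linarith
  have b3 : 0 < 3 + β := by linarith
  have b4 : 0 < 4 + β := by linarith
  refine ⟨by unfold e1; positivity, by unfold e2; positivity, by unfold e3; positivity, ?_⟩
  exact div_neg_of_pos_of_neg b4 h2

lemma q_one_neg {β : ℝ} (hβ : β ∈ Ioo (-1:ℝ) 0) : q β 1 < 0 := by
  obtain ⟨h1, h2⟩ := hβ
  have : q β 1 = 24 / (β * (1 + β) * (2 + β) * (3 + β)) := by
    have a0 : β ≠ 0 := h2.ne
    have a1 : 1 + β ≠ 0 := by linarith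
    have a2 : 2 + β ≠ 0 := by linarith
    have a3 : 3 + β ≠ 0 := by linarith
    simp only [q, e1, e2, e3, e4]
    field_simp
    ring
  rw [this]
  apply div_neg_of_pos_of_neg (by norm_num)
  have b1 : 0 < 1 + β := by linarith
  have b2 : 0 < 2 + β := by linarith
  have b3 : 0 < 3 + β := by linarith
  have : β * ((1 + β) * (2 + β) * (3 + β)) < 0 := mul_neg_of_neg_of_pos h2 (by positivity)
  linarith

lemma euler {β : ℝ} (hβ : β ∈ Ioo (-1:ℝ) 0) (x : ℝ) :
    x * q' β x + β * q β x = (4 + β) * (1 - x) ^ 4 := by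
  obtain ⟨h1, h2⟩ := hβ
  have a0 : β ≠ 0 := h2.ne
  have a1 : 1 + β ≠ 0 := by linarith
  have a2 : 2 + β ≠ 0 := by linarith
  have a3 : 3 + β ≠ 0 := by linarith
  simp only [q, q', e1, e2, e3, e4]
  field_simp
  ring

/-- `x ^ β * q β x` is strictly increasing on `(0, ∞)`. -/
lemma strictMonoOn_h {β : ℝ} (hβ : β ∈ Ioo (-1:ℝ) 0) :
    StrictMonoOn (fun x : ℝ => x ^ β * q β x) (Ioi 0) := by
  have b4 : 0 < 4 + β := by linarith [hβ.1]
  have hder : ∀ x : ℝ, 0 < x → HasDerivAt (fun x : ℝ => x ^ β * q β x)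
      (x ^ (β - 1) * ((4 + β) * (1 - x) ^ 4)) x := by
    intro x hx
    have h1 : HasDerivAt (fun x : ℝ => x ^ β) (β * x ^ (β - 1)) x :=
      Real.hasDerivAt_rpow_const (Or.inl hx.ne')
    refine (h1.fun_mul (hasDerivAt_q β x)).congr_deriv ?_
    rw [← euler hβ x]
    have : x ^ β = x ^ (β - 1) * x := by
      rw [Real.rpow_sub_one hx.ne']
      field_simp
    rw [this]
    ring
  have hcont : ContinuousOn (fun x : ℝ => x ^ β * q β x) (Ioi 0) :=
    fun x hx => (hder x hx).continuousAt.continuousWithinAt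
  have hU : Ioi (0:ℝ) = Ioc 0 1 ∪ Ici 1 := by
    rw [Ioc_union_Ici_eq_Ioi (by norm_num)]
  rw [hU]
  refine StrictMonoOn.union (c := 1) ?_ ?_ ?_ ?_
  · apply strictMonoOn_of_deriv_pos (convex_Ioc 0 1)
    · exact hcont.mono (fun x hx => hx.1)
    · intro x hx
      rw [interior_Ioc] at hx
      rw [(hder x hx.1).deriv]
      have : 0 < 1 - x := by linarith [hx.2]
      have h3 : 0 < x ^ (β - 1) := Real.rpow_pos_of_pos hx.1 _
      positivity
  · apply strictMonoOn_of_deriv_pos (convex_Ici 1)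
    · exact hcont.mono (fun x hx => lt_of_lt_of_le one_pos (mem_Ici.mp hx))
    · intro x hx
      rw [interior_Ici] at hx
      have hx' : (1:ℝ) < x := hx
      have hx0 : (0:ℝ) < x := by linarith
      rw [(hder x hx0).deriv]
      have h2 : 0 < (1 - x) ^ 4 := by
        have : 1 - x ≠ 0 := by linarith
        positivity
      have h3 : 0 < x ^ (β - 1) := Real.rpow_pos_of_pos hx0 _
      positivity
  · exact ⟨⟨one_pos, le_refl _⟩, fun x hx => hx.2⟩
  · exact ⟨mem_Ici.mpr le_rfl, fun x hx => hx⟩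

/-- sign comparison for positive arguments -/
lemma q_neg_of_lt {β : ℝ} (hβ : β ∈ Ioo (-1:ℝ) 0) {b x : ℝ} (hb : 0 < b) (hqb : q β b = 0)
    (hx : 0 < x) (hxb : x < b) : q β x < 0 := by
  have := strictMonoOn_h hβ hx hb hxb
  simp only [hqb, mul_zero] at this
  have h3 : 0 < x ^ β := Real.rpow_pos_of_pos hx _
  by_contra hcon
  push Not at hcon
  have := mul_nonneg h3.le hcon
  linarith

lemma q_pos_of_gt {β : ℝ} (hβ : β ∈ Ioo (-1:ℝ) 0) {b x : ℝ} (hb : 0 < b) (hqb : q β b = 0)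
    (hxb : b < x) : 0 < q β x := by
  have hx : 0 < x := hb.trans hxb
  have := strictMonoOn_h hβ hb hx hxb
  simp only [hqb, mul_zero] at this
  have h3 : 0 < x ^ β := Real.rpow_pos_of_pos hx _
  exact (pos_iff_pos_of_mul_pos this).mp h3

lemma pos_root_unique {β : ℝ} (hβ : β ∈ Ioo (-1:ℝ) 0) {x y : ℝ} (hx : 0 < x) (hy : 0 < y)
    (qx : q β x = 0) (qy : q β y = 0) : x = y := by
  rcases lt_trichotomy x y with h | h | h
  · have := q_neg_of_lt hβ hy qy hx h; linarith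
  · exact h
  · have := q_neg_of_lt hβ hx qx hy h; linarith

lemma neg_strictAnti {β : ℝ} (hβ : β ∈ Ioo (-1:ℝ) 0) {x y : ℝ} (hy : y ≤ 0) (hxy : x < y) :
    q β y < q β x := by
  obtain ⟨h1, h2, h3, h4⟩ := e_facts hβ
  have hv : 0 ≤ -y := by linarith
  have huv : -y < -x := by linarith
  have p4 : (-y) ^ 4 < (-x) ^ 4 := pow_lt_pow_left₀ huv hv (by norm_num)
  have p3 : (-y) ^ 3 < (-x) ^ 3 := pow_lt_pow_left₀ huv hv (by norm_num)
  have p2 : (-y) ^ 2 < (-x) ^ 2 := pow_lt_pow_left₀ huv hv (by norm_num)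
  have := mul_lt_mul_of_pos_left p3 h1
  have := mul_lt_mul_of_pos_left p2 h2
  have := mul_lt_mul_of_pos_left huv h3
  simp only [q]
  nlinarith

lemma neg_root_unique {β : ℝ} (hβ : β ∈ Ioo (-1:ℝ) 0) {x y : ℝ} (hx : x < 0) (hy : y < 0)
    (qx : q β x = 0) (qy : q β y = 0) : x = y := by
  rcases lt_trichotomy x y with h | h | h
  · have := neg_strictAnti hβ hy.le h; linarith
  · exact h
  · have := neg_strictAnti hβ hx.le h; linarith

lemma continuous_q (β : ℝ) : Continuous (q β) := by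
  unfold q; fun_prop

lemma exists_pos_root {β : ℝ} (hβ : β ∈ Ioo (-1:ℝ) 0) : ∃ b, 0 < b ∧ q β b = 0 := by
  obtain ⟨h1, h2, h3, h4⟩ := e_facts hβ
  have hq1 := q_one_neg hβ
  set M := 1 + e1 β + e3 β - e4 β with hM
  have hM1 : 1 ≤ M := by linarith
  have hMpos : 0 < q β M := by
    have e : q β M = M ^ 3 * (M - e1 β - e3 β + e4 β) + e2 β * M ^ 2 + e3 β * (M ^ 3 - M)
      + (-e4 β) * (M ^ 3 - 1) := by
      simp only [q]; ring
    have hM3 : M ≤ M ^ 3 := le_self_pow₀ hM1 (by norm_num)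
    have : M - e1 β - e3 β + e4 β = 1 := by rw [hM]; ring
    rw [e, this]
    have t1 : 0 ≤ e3 β * (M ^ 3 - M) := mul_nonneg h3.le (by linarith)
    have t2 : 0 ≤ (-e4 β) * (M ^ 3 - 1) := mul_nonneg (by linarith) (by linarith)
    have : 0 < M ^ 3 := by positivity
    positivity
  have hiv := intermediate_value_Icc hM1 (continuous_q β).continuousOn
  obtain ⟨b, hb, hqb⟩ := hiv (⟨hq1.le, hMpos.le⟩ : (0:ℝ) ∈ Icc (q β 1) (q β M))
  exact ⟨b, by linarith [hb.1], hqb⟩

lemma exists_neg_root {β : ℝ} (hβ : β ∈ Ioo (-1:ℝ) 0) : ∃ a, a < 0 ∧ q β a = 0 := by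
  obtain ⟨h1, h2, h3, h4⟩ := e_facts hβ
  have hq0 : q β 0 < 0 := by simp [q, h4]
  set M := 1 - e4 β with hM
  have hM1 : 1 ≤ M := by linarith
  have hMpos : 0 < q β (-M) := by
    have e : q β (-M) = (M ^ 4 + e4 β) + e1 β * M ^ 3 + e2 β * M ^ 2 + e3 β * M := by
      simp only [q]; ring
    have hM4 : M ≤ M ^ 4 := le_self_pow₀ hM1 (by norm_num)
    have : 0 < M ^ 4 + e4 β := by linarith
    rw [e]
    positivity
  have hiv := intermediate_value_Icc' (by linarith : -M ≤ 0) (continuous_q β).continuousOn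
  obtain ⟨b, hb, hqb⟩ := hiv (⟨hq0.le, hMpos.le⟩ : (0:ℝ) ∈ Icc (q β 0) (q β (-M)))
  refine ⟨b, lt_of_le_of_ne hb.2 ?_, hqb⟩
  rintro rfl
  linarith

/-- the complete structure of the roots -/
lemma root_structure {β : ℝ} (hβ : β ∈ Ioo (-1:ℝ) 0) : ∃ a b s r : ℝ, a < 0 ∧ 0 < b ∧
    q β a = 0 ∧ q β b = 0 ∧ e1 β = a + b + s ∧ e2 β = a * b + r + (a + b) * s ∧
    e3 β = (a + b) * r + a * b * s ∧ e4 β = a * b * r ∧ s ^ 2 < 4 * r := by
  obtain ⟨a, ha, hqa⟩ := exists_neg_root hβ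
  obtain ⟨b, hb, hqb⟩ := exists_pos_root hβ
  set s := e1 β - a - b with hs
  set r := e2 β - a * b - (a + b) * s with hr
  have E1 : e1 β = a + b + s := by rw [hs]; ring
  have E2 : e2 β = a * b + r + (a + b) * s := by rw [hr]; ring
  have key : ∀ x, q β x = (x - a) * (x - b) * (x ^ 2 - s * x + r)
      - (e3 β - (a + b) * r - a * b * s) * x + (e4 β - a * b * r) := by
    intro x
    simp only [q, E1, E2]
    ring
  have ka := key a
  have kb := key b
  rw [hqa] at ka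
  rw [hqb] at kb
  have E3' : e3 β - (a + b) * r - a * b * s = 0 := by
    have : (e3 β - (a + b) * r - a * b * s) * (b - a) = 0 := by linear_combination kb - ka
    rcases mul_eq_zero.mp this with h | h
    · exact h
    · exfalso; linarith
  have E4' : e4 β - a * b * r = 0 := by
    have := ka
    rw [E3'] at this
    linarith
  have E3 : e3 β = (a + b) * r + a * b * s := by linarith
  have E4 : e4 β = a * b * r := by linarith
  refine ⟨a, b, s, r, ha, hb, hqa, hqb, E1, E2, E3, E4, ?_⟩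
  by_contra hcon
  push Not at hcon
  -- real root u of the quadratic
  have hfac : ∀ x, q β x = (x - a) * (x - b) * (x ^ 2 - s * x + r) := by
    intro x
    rw [key x, E3', E4']
    ring
  have hq' : ∀ x, q' β x = ((x - b) + (x - a)) * (x ^ 2 - s * x + r)
      + (x - a) * (x - b) * (2 * x - s) := by
    intro x
    simp only [q', E1, E2, E3]
    ring
  set u := (s + Real.sqrt (s ^ 2 - 4 * r)) / 2 with hu
  have hu0 : u ^ 2 - s * u + r = 0 := by
    have hsq : Real.sqrt (s ^ 2 - 4 * r) ^ 2 = s ^ 2 - 4 * r := Real.sq_sqrt (by linarith)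
    have : u ^ 2 - s * u + r = (Real.sqrt (s ^ 2 - 4 * r) ^ 2 - (s ^ 2 - 4 * r)) / 4 := by
      rw [hu]; ring
    rw [this, hsq]; ring
  have hqu : q β u = 0 := by rw [hfac, hu0, mul_zero]
  have hune : u ≠ 0 := by
    rintro h0
    have : q β 0 = 0 := by rw [h0] at hqu; exact hqu
    have h4 := (e_facts hβ).2.2.2
    simp [q] at this
    linarith
  have hu1 : q' β u = 0 := by
    rw [hq' u, hu0, mul_zero, zero_add]
    rcases lt_or_gt_of_ne hune with h | h
    · have : u = a := neg_root_unique hβ h ha hqu hqa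
      rw [this]; ring
    · have : u = b := pos_root_unique hβ h hb hqu hqb
      rw [this]; ring
  have heu := euler hβ u
  rw [hu1, hqu] at heu
  have h4b : 0 < 4 + β := by linarith [hβ.1]
  have : (1 - u) ^ 4 = 0 := by
    have : (4 + β) * (1 - u) ^ 4 = 0 := by linarith
    rcases mul_eq_zero.mp this with h | h
    · exfalso; linarith
    · exact h
  have h1u : 1 - u = 0 := pow_eq_zero_iff (by norm_num) |>.mp this
  have : u = 1 := by linarith
  have hlt := q_one_neg hβ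
  rw [← this, hqu] at hlt
  exact lt_irrefl _ hlt


/-! ### smoothness of the real roots -/

lemma smooth_root (X : ℝ → ℝ) (U : Set ℝ) (hU : IsOpen U)
    (hmem : ∀ β ∈ Ioo (-1:ℝ) 0, X β ∈ U) (hroot : ∀ β ∈ Ioo (-1:ℝ) 0, q β (X β) = 0)
    (huniq : ∀ β ∈ Ioo (-1:ℝ) 0, ∀ x ∈ U, q β x = 0 → x = X β) :
    ContDiffOn ℝ ∞ X (Ioo (-1) 0) := by
  intro β hβ
  apply ContDiffAt.contDiffWithinAt
  have hβ' := hβ
  obtain ⟨hb1, hb2⟩ := hβ'
  have n0 : β ≠ 0 := hb2.ne
  have n1 : 1 + β ≠ 0 := by linarith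
  have n2 : 2 + β ≠ 0 := by linarith
  have n3 : 3 + β ≠ 0 := by linarith
  set f : ℝ × ℝ → ℝ := fun p => q p.1 p.2 with hf
  set u : ℝ × ℝ := (β, X β) with hu
  have cdf : ContDiffAt ℝ ∞ f u := by
    have hfst : ContDiffAt ℝ ∞ (fun p : ℝ × ℝ => p.1) u := contDiffAt_fst
    have hsnd : ContDiffAt ℝ ∞ (fun p : ℝ × ℝ => p.2) u := contDiffAt_snd
    have c1 : ContDiffAt ℝ ∞ (fun p : ℝ × ℝ => e1 p.1) u := by
      unfold e1
      exact (contDiffAt_const.mul (contDiffAt_const.add hfst)).div (contDiffAt_const.add hfst) n3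
    have c2 : ContDiffAt ℝ ∞ (fun p : ℝ × ℝ => e2 p.1) u := by
      unfold e2
      exact (contDiffAt_const.mul (contDiffAt_const.add hfst)).div (contDiffAt_const.add hfst) n2
    have c3 : ContDiffAt ℝ ∞ (fun p : ℝ × ℝ => e3 p.1) u := by
      unfold e3
      exact (contDiffAt_const.mul (contDiffAt_const.add hfst)).div (contDiffAt_const.add hfst) n1
    have c4 : ContDiffAt ℝ ∞ (fun p : ℝ × ℝ => e4 p.1) u := by
      unfold e4
      exact (contDiffAt_const.add hfst).div hfst n0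
    exact ((((hsnd.pow 4).sub (c1.mul (hsnd.pow 3))).add (c2.mul (hsnd.pow 2))).sub
      (c3.mul hsnd)).add c4
  have hfu : f u = 0 := hroot β hβ
  -- the partial derivative
  have hpart : HasFDerivAt (fun x : ℝ => f (β, x))
      (fderiv ℝ f u ∘L .inr ℝ ℝ ℝ) (X β) := by
    have h1 : HasFDerivAt f (fderiv ℝ f u) u :=
      (cdf.differentiableAt (by simp)).hasFDerivAt
    have h2 : HasFDerivAt (fun x : ℝ => (β, x)) (.inr ℝ ℝ ℝ) (X β) :=
      hasFDerivAt_prodMk_right β (X β)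
    exact h1.comp (X β) h2
  have hq'ne : q' β (X β) ≠ 0 := by
    intro h0
    have heu := euler hβ (X β)
    rw [h0, hroot β hβ] at heu
    have h4b : 0 < 4 + β := by linarith
    have : (1 - X β) ^ 4 = 0 := by
      have : (4 + β) * (1 - X β) ^ 4 = 0 := by linarith
      rcases mul_eq_zero.mp this with h | h
      · exfalso; linarith
      · exact h
    have h1u : 1 - X β = 0 := pow_eq_zero_iff (by norm_num) |>.mp this
    have : X β = 1 := by linarith
    have hlt := q_one_neg hβ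
    rw [← this, hroot β hβ] at hlt
    exact lt_irrefl _ hlt
  have hpart2 : HasFDerivAt (fun x : ℝ => f (β, x))
      ((ContinuousLinearEquiv.unitsEquivAut ℝ (Units.mk0 _ hq'ne) : ℝ ≃L[ℝ] ℝ) : ℝ →L[ℝ] ℝ)
      (X β) := by
    have := (hasDerivAt_q β (X β)).hasFDerivAt
    refine this.congr_fderiv ?_
    ext
    simp
  have hinv : (fderiv ℝ f u ∘L .inr ℝ ℝ ℝ).IsInvertible := by
    rw [hpart.unique hpart2]
    exact ⟨_, rfl⟩
  have hne : (∞ : WithTop ℕ∞) ≠ 0 := by simp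
  set ψ := cdf.implicitFunction hne hinv with hψ
  have hψ0 : ψ β = X β := cdf.implicitFunction_apply_self hne hinv
  have hψc : ContDiffAt ℝ ∞ ψ β := cdf.contDiffAt_implicitFunction hne hinv
  have hev := cdf.eventually_apply_implicitFunction hne hinv
  have hU' : ∀ᶠ x in 𝓝 β, ψ x ∈ U :=
    hψc.continuousAt.eventually_mem (hU.mem_nhds (by rw [hψ0]; exact hmem β hβ))
  have hI : ∀ᶠ x in 𝓝 β, x ∈ Ioo (-1:ℝ) 0 := isOpen_Ioo.mem_nhds hβ
  have hEq : X =ᶠ[𝓝 β] ψ := by
    have hev' : ∀ᶠ x in 𝓝 β, f (x, ψ x) = f u := hev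
    filter_upwards [hev', hU', hI] with x h1 h2 h3
    rw [hfu] at h1
    exact (huniq x h3 (ψ x) h2 h1).symm
  exact hψc.congr_of_eventuallyEq hEq


/-! ### the complex quartic -/

noncomputable def qc (β : ℝ) (x : ℂ) : ℂ :=
  x ^ 4 - (e1 β : ℂ) * x ^ 3 + (e2 β : ℂ) * x ^ 2 - (e3 β : ℂ) * x + (e4 β : ℂ)

lemma G_three {β : ℝ} (hβ : β ∈ Ioo (-1:ℝ) 0) (ξ : ℂ) : (4 + (β:ℂ)) * G 3 β ξ = qc β ξ := by
  obtain ⟨h1, h2⟩ := hβ
  have a0 : (β:ℂ) ≠ 0 := by exact_mod_cast h2.ne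
  have a1 : (1 + (β:ℂ)) ≠ 0 := by
    have : (1 + β) ≠ 0 := by linarith
    exact_mod_cast this
  have a2 : (2 + (β:ℂ)) ≠ 0 := by
    have : (2 + β) ≠ 0 := by linarith
    exact_mod_cast this
  have a3 : (3 + (β:ℂ)) ≠ 0 := by
    have : (3 + β) ≠ 0 := by linarith
    exact_mod_cast this
  have a4 : (4 + (β:ℂ)) ≠ 0 := by
    have : (4 + β) ≠ 0 := by linarith
    exact_mod_cast this
  have c0 : Nat.choose 4 0 = 1 := rfl
  have c1 : Nat.choose 4 1 = 4 := rfl
  have c2 : Nat.choose 4 2 = 6 := rfl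
  have c3 : Nat.choose 4 3 = 4 := rfl
  have c4 : Nat.choose 4 4 = 1 := rfl
  simp only [G, Finset.sum_range_succ, Finset.sum_range_zero, c0, c1, c2, c3, c4, qc, e1, e2, e3, e4]
  push_cast
  simp only [zero_add]
  field_simp
  ring

lemma G_zero_iff {β : ℝ} (hβ : β ∈ Ioo (-1:ℝ) 0) (ξ : ℂ) : G 3 β ξ = 0 ↔ qc β ξ = 0 := by
  have a4 : (4 + (β:ℂ)) ≠ 0 := by
    have : (4 + β) ≠ 0 := by linarith [hβ.1]
    exact_mod_cast this
  rw [← G_three hβ ξ]
  simp [a4]

/-- A family of continuous pairwise distinct functions whose graphs fill the zero set. -/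
lemma isBranch_of_family (α m : ℕ) (X : Fin m → ℝ → ℂ)
    (hsmooth : ∀ i, ContDiffOn ℝ ∞ (X i) (Ioo (-1) 0))
    (hne : ∀ β ∈ Ioo (-1:ℝ) 0, ∀ i j, i ≠ j → X i β ≠ X j β)
    (hzero : ∀ β ∈ Ioo (-1:ℝ) 0, ∀ ξ, G α β ξ = 0 ↔ ∃ i, ξ = X i β) (i : Fin m) :
    IsBranch α (X i) := by
  refine ⟨hsmooth i, ?_⟩
  intro β hβ
  have hgr : (fun t : ℝ => (t, X i t)) '' Ioo (-1) 0 ⊆ zeroSet α := by
    rintro _ ⟨t, ht, rfl⟩
    exact ⟨ht, (hzero t ht _).mpr ⟨i, rfl⟩⟩
  have hpre : IsPreconnected ((fun t : ℝ => (t, X i t)) '' Ioo (-1) 0) := by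
    apply isPreconnected_Ioo.image
    exact continuousOn_id.prodMk (hsmooth i).continuousOn
  apply Subset.antisymm
  · -- component contained in graph
    intro p hp
    have hsub : connectedComponentIn (zeroSet α) (β, X i β) ⊆ zeroSet α :=
      connectedComponentIn_subset _ _
    set K := connectedComponentIn (zeroSet α) (β, X i β) with hK
    have hKpre : IsPreconnected K := isPreconnected_connectedComponentIn
    have hmemK : (β, X i β) ∈ K := mem_connectedComponentIn (hgr ⟨β, hβ, rfl⟩)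
    have hpZ := hsub hp
    by_contra hcon
    have hpne : p.2 ≠ X i p.1 := by
      intro h
      exact hcon ⟨p.1, hpZ.1, by show (p.1, X i p.1) = p; rw [← h]⟩
    -- the separating map
    set F : ℝ × ℂ → ℂ × ℂ := fun z =>
      (z.2 - X i z.1, ∏ j ∈ Finset.univ.erase i, (z.2 - X j z.1)) with hF
    have hcontj : ∀ j, ContinuousOn (fun z : ℝ × ℂ => z.2 - X j z.1) K := by
      intro j
      apply continuousOn_snd.sub
      exact (hsmooth j).continuousOn.comp continuousOn_fst (fun z hz => (hsub hz).1)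
    have hFcont : ContinuousOn F K := by
      apply (hcontj i).prodMk
      exact continuousOn_finsetProd _ (fun j _ => hcontj j)
    have himg : IsPreconnected (F '' K) := hKpre.image F hFcont
    have hclosed := isPreconnected_closed_iff.mp himg
    have hc1 : IsClosed {w : ℂ × ℂ | w.1 = 0} := isClosed_eq continuous_fst continuous_const
    have hc2 : IsClosed {w : ℂ × ℂ | w.2 = 0} := isClosed_eq continuous_snd continuous_const
    have hcov : F '' K ⊆ {w : ℂ × ℂ | w.1 = 0} ∪ {w : ℂ × ℂ | w.2 = 0} := by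
      rintro _ ⟨z, hz, rfl⟩
      obtain ⟨hz1, hz2⟩ := hsub hz
      obtain ⟨j, hj⟩ := (hzero z.1 hz1 z.2).mp hz2
      by_cases hji : j = i
      · left
        simp [hF, hj, hji]
      · right
        simp only [hF, mem_ofPred_eq]
        apply Finset.prod_eq_zero (Finset.mem_erase.mpr ⟨hji, Finset.mem_univ j⟩)
        rw [hj, sub_self]
    obtain ⟨w, hw, hw1, hw2⟩ := hclosed _ _ hc1 hc2 hcov
      ⟨F (β, X i β), ⟨_, hmemK, rfl⟩, by simp [hF]⟩
      ⟨F p, ⟨p, hp, rfl⟩, by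
        obtain ⟨j, hj⟩ := (hzero p.1 hpZ.1 p.2).mp hpZ.2
        have hji : j ≠ i := by
          rintro rfl
          exact hpne hj
        simp only [hF, mem_ofPred_eq]
        apply Finset.prod_eq_zero (Finset.mem_erase.mpr ⟨hji, Finset.mem_univ j⟩)
        rw [hj, sub_self]⟩
    obtain ⟨z, hz, rfl⟩ := hw
    have e1' : z.2 - X i z.1 = 0 := hw1
    have e2' : ∏ j ∈ Finset.univ.erase i, (z.2 - X j z.1) = 0 := hw2
    obtain ⟨j, hj, hj0⟩ := Finset.prod_eq_zero_iff.mp e2'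
    have hji := (Finset.mem_erase.mp hj).1
    apply hne z.1 (hsub hz).1 j i hji
    rw [← sub_eq_zero.mp hj0, ← sub_eq_zero.mp e1']
  · exact hpre.subset_connectedComponentIn ⟨β, hβ, rfl⟩ hgr


/-! ### the two univariate inequalities -/

lemma q_x0 {β : ℝ} (hβ : β ∈ Ioo (-1:ℝ) 0) : q β (747 / 200) =
    (38400000000 + 313884757286 * β + 735605027291 * β ^ 2 + 406222295686 * β ^ 3
      + 89526025681 * β ^ 4) / (1600000000 * (β * ((1 + β) * (2 + β) * (3 + β)))) := by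
  obtain ⟨h1, h2⟩ := hβ
  have a0 : β ≠ 0 := h2.ne
  have a1 : 1 + β ≠ 0 := by linarith
  have a2 : 2 + β ≠ 0 := by linarith
  have a3 : 3 + β ≠ 0 := by linarith
  simp only [q, e1, e2, e3, e4]
  field_simp
  ring

lemma q_x0_neg {β : ℝ} (hβ : β ∈ Ioo (-1:ℝ) 0) (h : β ≤ -3 / 10) : q β (747 / 200) < 0 := by
  rw [q_x0 hβ]
  obtain ⟨h1, h2⟩ := hβ
  have hu : 0 < β + 1 := by linarith
  have hv : 0 ≤ -3 / 10 - β := by linarith
  have e : 38400000000 + 313884757286 * β + 735605027291 * β ^ 2 + 406222295686 * β ^ 3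
      + 89526025681 * β ^ 4 = (1434240000000000 / 2401) * (-3 / 10 - β) ^ 4
      + (3659622409266000 / 2401) * (β + 1) * (-3 / 10 - β) ^ 3
      + (2638489269961100 / 2401) * (β + 1) ^ 2 * (-3 / 10 - β) ^ 2
      + (200116713983860 / 2401) * (β + 1) ^ 3 * (-3 / 10 - β)
      + (1961840948841 / 2401) * (β + 1) ^ 4 := by ring
  apply div_neg_of_pos_of_neg
  · rw [e]; positivity
  · have b1 : 0 < 1 + β := by linarith
    have b2 : 0 < 2 + β := by linarith
    have b3 : 0 < 3 + β := by linarith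
    have : β * ((1 + β) * (2 + β) * (3 + β)) < 0 := mul_neg_of_neg_of_pos h2 (by positivity)
    linarith

lemma q_x0_pos : 0 < q (-27 / 100) (747 / 200) := by
  rw [q_x0 ⟨by norm_num, by norm_num⟩]
  norm_num

/-- resolvent cubic -/
noncomputable def cub (β y : ℝ) : ℝ :=
  y ^ 3 - e2 β * y ^ 2 + (e1 β * e3 β - 4 * e4 β) * y
    - (e3 β ^ 2 + e1 β ^ 2 * e4 β - 4 * e2 β * e4 β)

lemma cub_eq {β : ℝ} (hβ : β ∈ Ioo (-1:ℝ) 0) : cub β (749 / 100 + e4 β / (749 / 100)) =
    (1152000000000000 - 37530268800000000 * β - 156761258720720000 * β ^ 2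
      + 401836132988215618 * β ^ 3 + 2257581578522294057 * β ^ 4 + 2823238930350711268 * β ^ 5
      + 1861963137445706438 * β ^ 6 + 609086755641937210 * β ^ 7 + 74725388357583601 * β ^ 8)
      / (420189749000000 * (β ^ 3 * ((1 + β) ^ 2 * (2 + β) * (3 + β) ^ 2))) := by
  obtain ⟨h1, h2⟩ := hβ
  have a0 : β ≠ 0 := h2.ne
  have a1 : 1 + β ≠ 0 := by linarith
  have a2 : 2 + β ≠ 0 := by linarith
  have a3 : 3 + β ≠ 0 := by linarith
  simp only [cub, e1, e2, e3, e4]
  field_simp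
  ring

lemma cub_neg {β : ℝ} (hβ : β ∈ Ioo (-1:ℝ) 0) (h : -3 / 10 ≤ β) :
    cub β (749 / 100 + e4 β / (749 / 100)) < 0 := by
  rw [cub_eq hβ]
  obtain ⟨h1, h2⟩ := hβ
  have hu : 0 ≤ β + 3 / 10 := by linarith
  have hv : 0 < -β := by linarith
  have e : 1152000000000000 - 37530268800000000 * β - 156761258720720000 * β ^ 2
      + 401836132988215618 * β ^ 3 + 2257581578522294057 * β ^ 4 + 2823238930350711268 * β ^ 5
      + 1861963137445706438 * β ^ 6 + 609086755641937210 * β ^ 7 + 74725388357583601 * β ^ 8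
      = (1199983735565568666629 / 729) * (-β) ^ 8
      + (15838419037795119229100 / 243) * (β + 3 / 10) * (-β) ^ 7
      + (434085136681494546219800 / 729) * (β + 3 / 10) ^ 2 * (-β) ^ 6
      + (1491099703769509802284000 / 729) * (β + 3 / 10) ^ 3 * (-β) ^ 5
      + (93464467473106779190000 / 27) * (β + 3 / 10) ^ 4 * (-β) ^ 4
      + (2282800423779215314600000 / 729) * (β + 3 / 10) ^ 5 * (-β) ^ 3
      + (1077345013279280000000000 / 729) * (β + 3 / 10) ^ 6 * (-β) ^ 2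
      + (75833632000000000000000 / 243) * (β + 3 / 10) ^ 7 * (-β)
      + (12800000000000000000000 / 729) * (β + 3 / 10) ^ 8 := by ring
  apply div_neg_of_pos_of_neg
  · rw [e]; positivity
  · have b1 : 0 < 1 + β := by linarith
    have b2 : 0 < 2 + β := by linarith
    have b3 : 0 < 3 + β := by linarith
    have : β ^ 3 < 0 := Odd.pow_neg (by decide) h2
    have : β ^ 3 * ((1 + β) ^ 2 * (2 + β) * (3 + β) ^ 2) < 0 :=
      mul_neg_of_neg_of_pos this (by positivity)
    linarith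

lemma cub_pos : 0 < cub (-1 / 3) (749 / 100 + e4 (-1 / 3) / (749 / 100)) := by
  rw [cub_eq ⟨by norm_num, by norm_num⟩]
  norm_num

lemma cub_sign {β a b s r : ℝ} (ha : a < 0) (hb : 0 < b)
    (E1 : e1 β = a + b + s) (E2 : e2 β = a * b + r + (a + b) * s)
    (E3 : e3 β = (a + b) * r + a * b * s) (E4 : e4 β = a * b * r) (hs : s ^ 2 < 4 * r) :
    (cub β (749 / 100 + e4 β / (749 / 100)) < 0 → 749 / 100 < r) ∧
    (0 < cub β (749 / 100 + e4 β / (749 / 100)) → r < 749 / 100) := by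
  set y := 749 / 100 + e4 β / (749 / 100) with hy
  have hfac : cub β y = (y - (a * b + r)) *
      (y ^ 2 - (a + b) * s * y + r * (a ^ 2 + b ^ 2) + a * b * (s ^ 2 - 2 * r)) := by
    simp only [cub, E1, E2, E3, E4]
    ring
  have hpos : 0 < y ^ 2 - (a + b) * s * y + r * (a ^ 2 + b ^ 2) + a * b * (s ^ 2 - 2 * r) := by
    have e : y ^ 2 - (a + b) * s * y + r * (a ^ 2 + b ^ 2) + a * b * (s ^ 2 - 2 * r)
        = ((2 * y - (a + b) * s) ^ 2 + (b - a) ^ 2 * (4 * r - s ^ 2)) / 4 := by ring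
    rw [e]
    have h1 : 0 < b - a := by linarith
    have h2 : 0 < 4 * r - s ^ 2 := by linarith
    positivity
  have hlin : y - (a * b + r) = (749 / 100 - r) * ((749 / 100 - a * b) / (749 / 100)) := by
    rw [hy, E4]; field_simp; ring
  have hab : 0 < (749 / 100 - a * b) / (749 / 100) := by
    have : a * b < 0 := mul_neg_of_neg_of_pos ha hb
    have : 0 < 749 / 100 - a * b := by linarith
    positivity
  constructor
  · intro h
    rw [hfac, hlin] at h
    by_contra hcon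
    push Not at hcon
    have : 0 ≤ (749 / 100 - r) := by linarith
    have := mul_nonneg (mul_nonneg this hab.le) hpos.le
    linarith
  · intro h
    rw [hfac, hlin] at h
    by_contra hcon
    push Not at hcon
    have : 0 ≤ (r - 749 / 100) := by linarith
    have := mul_nonneg (mul_nonneg this hab.le) hpos.le
    linarith

/-- For `α = 3` there are two branches `X`, `Y` of zeros of `G_{3,β}`, `X` with positive real values
and `Y` with values in the upper half-plane, both different from the real strictly decreasing branch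
`𝒳_{3,0}`, such that no `βs ∈ (-1,0)` minimises both `|X|` and `|Y|` over `(-1,0)`. -/
theorem result : ∃ X Y : ℝ → ℂ,
    IsBranch 3 X ∧ IsBranch 3 Y ∧
    (∀ β ∈ Ioo (-1 : ℝ) 0, (X β).im = 0 ∧ 0 < (X β).re) ∧
    (∀ β ∈ Ioo (-1 : ℝ) 0, 0 < (Y β).im) ∧
    ¬ IsRealDecreasing X ∧ ¬ IsRealDecreasing Y ∧
    ¬ ∃ βs ∈ Ioo (-1 : ℝ) 0,
      (∀ β ∈ Ioo (-1 : ℝ) 0, ‖X βs‖ ≤ ‖X β‖) ∧ (∀ β ∈ Ioo (-1 : ℝ) 0, ‖Y βs‖ ≤ ‖Y β‖) := by
  have key : ∀ β : ℝ, β ∈ Ioo (-1:ℝ) 0 → ∃ a b s r : ℝ, a < 0 ∧ 0 < b ∧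
    q β a = 0 ∧ q β b = 0 ∧ e1 β = a + b + s ∧ e2 β = a * b + r + (a + b) * s ∧
    e3 β = (a + b) * r + a * b * s ∧ e4 β = a * b * r ∧ s ^ 2 < 4 * r :=
    fun β hβ => root_structure hβ
  choose! A B S R hA hB hqA hqB E1 E2 E3 E4 hSR using key
  -- smoothness
  have sA : ContDiffOn ℝ ∞ A (Ioo (-1) 0) :=
    smooth_root A (Iio 0) isOpen_Iio (fun β hβ => hA β hβ) hqA
      (fun β hβ x hx hqx => neg_root_unique hβ hx (hA β hβ) hqx (hqA β hβ))
  have sB : ContDiffOn ℝ ∞ B (Ioo (-1) 0) :=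
    smooth_root B (Ioi 0) isOpen_Ioi (fun β hβ => hB β hβ) hqB
      (fun β hβ x hx hqx => pos_root_unique hβ hx (hB β hβ) hqx (hqB β hβ))
  have se1 : ContDiffOn ℝ ∞ e1 (Ioo (-1) 0) := by
    unfold e1
    refine (contDiffOn_const.mul (contDiffOn_const.add contDiffOn_id)).div
      (contDiffOn_const.add contDiffOn_id) ?_
    intro x hx
    show 3 + x ≠ 0
    linarith [hx.1]
  have se4 : ContDiffOn ℝ ∞ e4 (Ioo (-1) 0) := by
    unfold e4
    refine (contDiffOn_const.add contDiffOn_id).div contDiffOn_id ?_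
    intro x hx
    exact hx.2.ne
  have sS : ContDiffOn ℝ ∞ S (Ioo (-1) 0) := by
    refine ((se1.sub sA).sub sB).congr ?_
    intro x hx
    have := E1 x hx
    show S x = e1 x - A x - B x
    linarith
  have sR : ContDiffOn ℝ ∞ R (Ioo (-1) 0) := by
    refine (se4.div (sA.mul sB) ?_).congr ?_
    · intro x hx
      exact (mul_neg_of_neg_of_pos (hA x hx) (hB x hx)).ne
    · intro x hx
      have := E4 x hx
      have hne : A x * B x ≠ 0 := (mul_neg_of_neg_of_pos (hA x hx) (hB x hx)).ne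
      show R x = e4 x / (A x * B x)
      rw [this, mul_div_cancel_left₀ _ hne]
  set W : ℝ → ℝ := fun β => Real.sqrt (4 * R β - S β ^ 2) / 2 with hW
  have hWpos : ∀ β ∈ Ioo (-1:ℝ) 0, 0 < W β := by
    intro β hβ
    have : 0 < 4 * R β - S β ^ 2 := by linarith [hSR β hβ]
    have := Real.sqrt_pos.mpr this
    simp only [hW]
    positivity
  have hWsq : ∀ β ∈ Ioo (-1:ℝ) 0, W β ^ 2 = R β - S β ^ 2 / 4 := by
    intro β hβ
    have : 0 ≤ 4 * R β - S β ^ 2 := by linarith [hSR β hβ]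
    have := Real.sq_sqrt this
    simp only [hW]
    rw [div_pow, this]
    ring
  have sW : ContDiffOn ℝ ∞ W (Ioo (-1) 0) := by
    have h1 : ContDiffOn ℝ ∞ (fun β => 4 * R β - S β ^ 2) (Ioo (-1) 0) :=
      (contDiffOn_const.mul sR).sub (sS.pow 2)
    have h2 := h1.sqrt (fun x hx => by
      have := hSR x hx
      intro h
      linarith)
    exact h2.div_const 2
  -- the four branches
  set X : Fin 4 → ℝ → ℂ := ![fun β => (A β : ℂ), fun β => (S β : ℂ) / 2 - (W β : ℂ) * Complex.I,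
    fun β => (B β : ℂ), fun β => (S β : ℂ) / 2 + (W β : ℂ) * Complex.I] with hX
  have ofR : ∀ f : ℝ → ℝ, ContDiffOn ℝ ∞ f (Ioo (-1) 0) →
      ContDiffOn ℝ ∞ (fun β => (f β : ℂ)) (Ioo (-1) 0) := by
    intro f hf
    exact Complex.ofRealCLM.contDiff.comp_contDiffOn hf
  have hsmooth : ∀ i, ContDiffOn ℝ ∞ (X i) (Ioo (-1) 0) := by
    intro i
    fin_cases i
    · exact ofR A sA
    · exact ((ofR S sS).div_const 2).sub ((ofR W sW).mul contDiffOn_const)
    · exact ofR B sB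
    · exact ((ofR S sS).div_const 2).add ((ofR W sW).mul contDiffOn_const)
  have hzero : ∀ β ∈ Ioo (-1:ℝ) 0, ∀ ξ, G 3 β ξ = 0 ↔ ∃ i, ξ = X i β := by
    intro β hβ ξ
    rw [G_zero_iff hβ]
    have hfac : qc β ξ = (ξ - X 0 β) * (ξ - X 1 β) * (ξ - X 2 β) * (ξ - X 3 β) := by
      have hw : (W β : ℂ) ^ 2 = (R β : ℂ) - (S β : ℂ) ^ 2 / 4 := by
        exact_mod_cast congrArg (fun x : ℝ => (x : ℂ)) (hWsq β hβ)
      simp only [hX, qc, E1 β hβ, E2 β hβ, E3 β hβ, E4 β hβ, Matrix.cons_val]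
      push_cast
      have : (ξ - ((S β : ℂ) / 2 - (W β : ℂ) * Complex.I)) *
          (ξ - ((S β : ℂ) / 2 + (W β : ℂ) * Complex.I)) = ξ ^ 2 - S β * ξ + R β := by
        have : (ξ - ((S β : ℂ) / 2 - (W β : ℂ) * Complex.I)) *
          (ξ - ((S β : ℂ) / 2 + (W β : ℂ) * Complex.I)) =
          ξ ^ 2 - S β * ξ + (S β : ℂ) ^ 2 / 4 - (W β : ℂ) ^ 2 * Complex.I ^ 2 := by ring
        rw [this, Complex.I_sq, hw]
        ring
      linear_combination -(ξ - A β) * (ξ - B β) * this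
    rw [hfac]
    constructor
    · intro h
      rcases mul_eq_zero.mp h with h | h
      · rcases mul_eq_zero.mp h with h | h
        · rcases mul_eq_zero.mp h with h | h
          · exact ⟨0, sub_eq_zero.mp h⟩
          · exact ⟨1, sub_eq_zero.mp h⟩
        · exact ⟨2, sub_eq_zero.mp h⟩
      · exact ⟨3, sub_eq_zero.mp h⟩
    · rintro ⟨i, hi⟩
      fin_cases i <;> (rw [hi]; simp)
  have him : ∀ β ∈ Ioo (-1:ℝ) 0, (X 0 β).im = 0 ∧ (X 0 β).re < 0 ∧ (X 1 β).im < 0 ∧
      (X 2 β).im = 0 ∧ 0 < (X 2 β).re ∧ 0 < (X 3 β).im := by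
    intro β hβ
    have h1 := hA β hβ
    have h2 := hB β hβ
    have h3 := hWpos β hβ
    simp only [hX, Matrix.cons_val]
    refine ⟨by simp, by simpa using h1, ?_, by simp, by simpa using h2, ?_⟩
    · simp
      exact h3
    · simp
      exact h3
  have hne : ∀ β ∈ Ioo (-1:ℝ) 0, ∀ i j, i ≠ j → X i β ≠ X j β := by
    intro β hβ i j hij h
    obtain ⟨i1, i2, i3, i4, i5, i6⟩ := him β hβ
    fin_cases i <;> fin_cases j <;> first | exact hij rfl | skip
    all_goals
      simp only [Fin.zero_eta, Fin.mk_one, Fin.reduceFinMk] at h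
      have hi := congrArg Complex.im h
      have hr := congrArg Complex.re h
      linarith
  have hbr := isBranch_of_family 3 4 X hsmooth hne hzero
  have hmid : (-1/2:ℝ) ∈ Ioo (-1:ℝ) 0 := ⟨by norm_num, by norm_num⟩
  refine ⟨X 2, X 3, hbr 2, hbr 3, fun β hβ => ⟨(him β hβ).2.2.2.1, (him β hβ).2.2.2.2.1⟩,
    fun β hβ => (him β hβ).2.2.2.2.2, ?_, ?_, ?_⟩
  · rintro ⟨-, -, h3⟩
    have : (X 2 (-1/2)).re ∈ Iio (0:ℝ) := by
      rw [← h3]
      exact ⟨-1/2, hmid, rfl⟩
    have h5 := (him (-1/2) hmid).2.2.2.2.1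
    have h6 : (X 2 (-1/2)).re < 0 := this
    linarith
  · rintro ⟨h1, -, -⟩
    have := h1 _ hmid
    have h6 := (him (-1/2) hmid).2.2.2.2.2
    linarith
  · rintro ⟨βs, hβs, hm1, hm2⟩
    rcases le_total βs (-3 / 10) with hle | hge
    · -- the positive branch is not minimal
      have h27 : (-27 / 100 : ℝ) ∈ Ioo (-1:ℝ) 0 := ⟨by norm_num, by norm_num⟩
      have hm := hm1 _ h27
      have n1 : ‖X 2 βs‖ = B βs := by
        simp only [hX, Matrix.cons_val, Complex.norm_real, Real.norm_eq_abs]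
        exact abs_of_pos (hB _ hβs)
      have n2 : ‖X 2 (-27 / 100)‖ = B (-27 / 100) := by
        simp only [hX, Matrix.cons_val, Complex.norm_real, Real.norm_eq_abs]
        exact abs_of_pos (hB _ h27)
      rw [n1, n2] at hm
      have c1 : (747 / 200 : ℝ) < B βs := by
        by_contra hcon
        push Not at hcon
        have hq := q_x0_neg hβs hle
        rcases hcon.lt_or_eq with h | h
        · have := q_pos_of_gt hβs (hB _ hβs) (hqB _ hβs) h
          linarith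
        · have := hqB _ hβs
          rw [h] at this
          linarith
      have c2 : B (-27 / 100) < (747 / 200 : ℝ) := by
        by_contra hcon
        push Not at hcon
        have hq := q_x0_pos
        rcases hcon.lt_or_eq with h | h
        · have := q_neg_of_lt h27 (hB _ h27) (hqB _ h27) (by norm_num) h
          linarith
        · have := hqB _ h27
          rw [← h] at this
          linarith
      linarith
    · -- the complex branch is not minimal
      have h13 : (-1 / 3 : ℝ) ∈ Ioo (-1:ℝ) 0 := ⟨by norm_num, by norm_num⟩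
      have hm := hm2 _ h13
      have nrm : ∀ β ∈ Ioo (-1:ℝ) 0, ‖X 3 β‖ ^ 2 = R β := by
        intro β hβ
        rw [Complex.sq_norm, Complex.normSq_apply]
        simp only [hX, Matrix.cons_val]
        have := hWsq β hβ
        simp
        nlinarith
      have hsq : ‖X 3 βs‖ ^ 2 ≤ ‖X 3 (-1 / 3)‖ ^ 2 := by
        gcongr
      rw [nrm _ hβs, nrm _ h13] at hsq
      have c1 := (cub_sign (hA _ hβs) (hB _ hβs) (E1 _ hβs) (E2 _ hβs) (E3 _ hβs) (E4 _ hβs)
        (hSR _ hβs)).1 (cub_neg hβs hge)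
      have c2 := (cub_sign (hA _ h13) (hB _ h13) (E1 _ h13) (E2 _ h13) (E3 _ h13) (E4 _ h13)
        (hSR _ h13)).2 cub_pos
      linarith

end Pool.Agent.Results.MP_9fecad_an.NoCommonMinimiser
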